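import Mathlib
import Pool.Agent.N290.RN.Stm
import Pool.Agent.N787.RK.LT

/-!
# Project RN (helper290), part LTQ: local solutions of the Bezout equation for dilated data,
local hypotheses

Part LTQ of the project RN of helper290 (statements in `Pool/Agent/N290/RN/Stm.lean` and plan by
helper290); written by helper369.  The proof follows `Pool/Agent/N249/RM/LTG.lean` (helper249) and
`Pool/Agent/N787/RK/LT.lean` (helper787), whose lemmas are used.
-/

set_option autoImplicit false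

open Complex MeasureTheory Set Filter Topology
open scoped ENNReal

namespace Pool.Agent.N369.RN

open Pool.Agent.N290.RJ Pool.Agent.N290.RK Pool.Agent.N290.RL Pool.Agent.N290.RM
  Pool.Agent.N290.RN Pool.Agent.N787.RK

variable {d : ℕ}

theorem W_open (p : E d) (τ : ℝ) : IsOpen {z : E d | z ∈ B d ∧ nm (z - p) < τ} :=
  B_open.inter (isOpen_lt (nm_cont.comp (continuous_id.sub continuous_const)) continuous_const)

/-- the dilated point is close to the point -/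
theorem nm_dil {z p : E d} (hz : z ∈ B d) (k : ℕ) :
    nm (rad k • z - p) ≤ nm (z - p) + (1 / 2) ^ k := by
  have h1 : rad k • z - p = (z - p) + (rad k - 1) • z := by
    rw [sub_smul, one_smul]; abel
  have h2 : nm ((rad k - 1) • z) ≤ (1 / 2) ^ k := by
    unfold nm
    rw [Real.sqrt_le_iff]
    refine ⟨by positivity, ?_⟩
    rw [N_smul]
    have h3 : (rad k - 1) ^ 2 = ((1 / 2 : ℝ) ^ k) ^ 2 := by unfold rad; ring
    rw [h3]
    have h4 : N z ≤ 1 := le_of_lt hz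
    exact mul_le_of_le_one_right (by positivity) h4
  rw [h1]
  exact (Pool.Agent.N655.RJ.nm_add _ _).trans (by linarith)

/-- the function `Z κ`, local version -/
theorem Kf_local {M : ℕ} {ε r A C R R' : ℝ} {p : E d} {f X : Fin M → E d → ℂ} {κ : E d → ℂ}
    (hε : 0 < ε) (hr0 : 0 ≤ r) (hr1 : r ≤ 1)
    (hrR : ∀ z ∈ B d, nm (z - p) < R' → nm (r • z - p) < R)
    (hf : ∀ j, DifferentiableOn ℂ (f j) (B d))
    (hκ : DifferentiableOn ℂ κ {z | z ∈ B d ∧ nm (z - p) < R ∧ ∀ j, ‖f j z‖ < ε})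
    (hκA : ∀ z ∈ B d, nm (z - p) < R → (∀ j, ‖f j z‖ < ε) → ‖κ z‖ ≤ A) (hC : 1 ≤ C)
    (hX : ∀ j, ContDiffOn ℝ 1 (X j) (B d)) (hXC : ∀ j, ∀ z ∈ B d, ‖X j z‖ ≤ C)
    (hX0 : ∀ j, ∀ z ∈ B d, ε / 2 ≤ ‖f j (r • z)‖ → X j z = 0) {a : E d → ℝ}
    (ha : ∀ z ∈ B d, 0 ≤ a z)
    (hXd : ∀ j, ∀ z ∈ B d, ∀ ξ, ‖db (X j) z ξ‖ ≤ C * a z * len z ξ) :
    ContDiffOn ℝ 1 (Kf ε r f X κ) {z | z ∈ B d ∧ nm (z - p) < R'} ∧
      ∀ z ∈ B d, nm (z - p) < R' → ‖Kf ε r f X κ z‖ ≤ C ^ M * |A| ∧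
      ∀ ξ, ‖db (Kf ε r f X κ) z ξ‖ ≤ |A| * (M * C ^ M) * a z * len z ξ := by
  have hC0 : 0 ≤ C := by linarith
  have hcont : ∀ j, ∀ z ∈ B d, ContinuousAt (fun w => ‖f j (r • w)‖) z := by
    intro j z hz
    have h1 : ContinuousAt (f j) (r • z) := (da_hol (hf j) (smul_mem_B hz hr0 hr1)).continuousAt
    have h2 : ContinuousAt (fun w : E d => r • w) z := (continuous_const_smul r).continuousAt
    exact (ContinuousAt.comp (f := fun w : E d => r • w) (g := f j) h1 h2).norm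
  have hUo : IsOpen {z : E d | z ∈ B d ∧ nm (z - p) < R ∧ ∀ j, ‖f j z‖ < ε} := by
    rw [isOpen_iff_mem_nhds]
    intro z hz
    have h1 : ∀ᶠ w in 𝓝 z, ∀ j, ‖f j w‖ < ε := by
      rw [eventually_all]
      intro j
      exact ((da_hol (hf j) hz.1).continuousAt.norm).eventually_lt_const (hz.2.2 j)
    have h2 : ∀ᶠ w in 𝓝 z, w ∈ B d ∧ nm (w - p) < R :=
      (W_open p R).eventually_mem (x := z) ⟨hz.1, hz.2.1⟩
    filter_upwards [h1, h2] with w hw1 hw2
    exact ⟨hw2.1, hw2.2, hw1⟩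
  have hκc : ContDiffOn ℝ 1 κ {z : E d | z ∈ B d ∧ nm (z - p) < R ∧ ∀ j, ‖f j z‖ < ε} :=
    (Pool.Agent.Helper540.contDiffOn_of_differentiableOn hUo hκ 1).restrict_scalars ℝ
  -- the two kinds of points
  have key : ∀ z ∈ B d, nm (z - p) < R' → ContDiffAt ℝ 1 (Kf ε r f X κ) z ∧
      ‖Kf ε r f X κ z‖ ≤ C ^ M * |A| ∧
      ∀ ξ, ‖db (Kf ε r f X κ) z ξ‖ ≤ |A| * (M * C ^ M) * a z * len z ξ := by
    intro z hz hzR
    have hrz : r • z ∈ B d := smul_mem_B hz hr0 hr1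
    have hXa : ∀ j, ContDiffAt ℝ 1 (X j) z := fun j => (hX j).contDiffAt (B_open.mem_nhds hz)
    by_cases hc : ∀ j, ‖f j (r • z)‖ < ε
    · have h1 : ∀ᶠ w in 𝓝 z, ∀ j, ‖f j (r • w)‖ < ε := by
        rw [eventually_all]
        intro j
        exact (hcont j z hz).eventually_lt_const (hc j)
      have h2 : Kf ε r f X κ =ᶠ[𝓝 z] fun w => (∏ j, X j w) * κ (r • w) := by
        filter_upwards [h1] with w hw
        exact Kf_pos hw
      have hmem : r • z ∈ {z : E d | z ∈ B d ∧ nm (z - p) < R ∧ ∀ j, ‖f j z‖ < ε} :=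
        ⟨hrz, hrR z hz hzR, hc⟩
      have h3 : ContDiffAt ℝ 1 κ (r • z) := hκc.contDiffAt (hUo.mem_nhds hmem)
      have h4 : ContDiffAt ℝ 1 (fun w : E d => κ (r • w)) z :=
        ContDiffAt.comp (g := κ) (f := fun w : E d => r • w) z h3
          (contDiff_const_smul r).contDiffAt
      have h5 : ContDiffAt ℝ 1 (fun w => ∏ j, X j w) z := by
        exact contDiffAt_prod fun j _ => hXa j
      have h6 : DifferentiableAt ℂ κ (r • z) := hκ.differentiableAt (hUo.mem_nhds hmem)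
      have h7 : DifferentiableAt ℂ (fun w : E d => κ (r • w)) z :=
        (dil_hasFDerivAt h6).differentiableAt
      have hA : ‖κ (r • z)‖ ≤ |A| := (hκA _ hrz (hrR z hz hzR) hc).trans (le_abs_self A)
      refine ⟨(h5.mul h4).congr_of_eventuallyEq h2, ?_, ?_⟩
      · have h8 := (prod_bd (a := 1) Finset.univ (C := C) hC (X := fun j _ => X j z)
          (z := z) (fun j => differentiableAt_const _) (fun j => hXC j z hz) 0 (fun j => by
            rw [db_hol (differentiableAt_const _), norm_zero]; linarith)).2.1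
        rw [Finset.card_univ, Fintype.card_fin] at h8
        rw [Kf_pos hc, norm_mul]
        exact mul_le_mul h8 hA (norm_nonneg _) (by positivity)
      · intro ξ
        rw [db_congr h2, db_mul (h5.differentiableAt one_ne_zero) (h4.differentiableAt one_ne_zero),
          db_hol h7, mul_zero, zero_add, norm_mul]
        have h8 := (prod_bd (a := a z * len z ξ) Finset.univ (C := C) hC (X := X)
          (z := z) (fun j => (hXa j).differentiableAt one_ne_zero) (fun j => hXC j z hz) ξ (fun j => by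
            rw [← mul_assoc]; exact hXd j z hz ξ)).2.2
        rw [Finset.card_univ, Fintype.card_fin] at h8
        refine (mul_le_mul hA h8 (norm_nonneg _) (abs_nonneg _)).trans (le_of_eq ?_)
        ring
    · have h0 : ∃ j, ε ≤ ‖f j (r • z)‖ := by
        by_contra h
        push Not at h
        exact hc h
      obtain ⟨j, hj⟩ := h0
      have h1 : ∀ᶠ w in 𝓝 z, ε / 2 < ‖f j (r • w)‖ :=
        (hcont j z hz).eventually_const_lt (by linarith)
      have h2 : Kf ε r f X κ =ᶠ[𝓝 z] fun _ => 0 := by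
        filter_upwards [h1, B_open.eventually_mem hz] with w hw hwB
        by_cases hw2 : ∀ j, ‖f j (r • w)‖ < ε
        · rw [Kf_pos hw2, Finset.prod_eq_zero (Finset.mem_univ j) (hX0 j w hwB hw.le), zero_mul]
        · exact Kf_neg hw2
      have hz0 : 0 ≤ |A| := abs_nonneg _
      refine ⟨contDiffAt_const.congr_of_eventuallyEq h2, ?_, ?_⟩
      · rw [Kf_neg hc, norm_zero]; positivity
      · intro ξ
        rw [db_congr h2, db_hol (differentiableAt_const _), norm_zero]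
        have := ha z hz
        have := len_nonneg z ξ
        positivity
  exact ⟨fun z hz => (key z hz.1 hz.2).1.contDiffWithinAt, fun z hz hzR => (key z hz hzR).2⟩

/-- subtracting a small solution and approximating -/
theorem lal_local {T R ρ η τ c₀ c₁ c₂ : ℝ} {a : E d → ℝ} {p : E d}
    (hLA : ∀ h : E d → ℂ, ContDiffOn ℝ 1 h {z | z ∈ B d ∧ nm (z - p) < R} →
      (∀ z ∈ B d, nm (z - p) < R → ‖h z‖ ≤ T) →
      (∀ z ∈ B d, nm (z - p) < R → ∀ ξ, ‖db h z ξ‖ ≤ T * a z ^ 2 * len z ξ) →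
      ∃ H : E d → ℂ, DifferentiableOn ℂ H (B d) ∧
        ∀ z ∈ B d, nm (z - p) < ρ → ‖H z - h z‖ ≤ η)
    (hRτ : R ≤ τ) {Y v : E d → ℂ} {Φ : E d → E d → ℂ}
    (hY : ContDiffOn ℝ 1 Y (B d)) (hYb : ∀ z ∈ B d, ‖Y z‖ ≤ c₀)
    (hYd : ∀ z ∈ B d, ∀ ξ, ‖db (fun w => starRingEnd ℂ (Y w)) z ξ - Φ z ξ‖ ≤
      c₁ * a z ^ 2 * len z ξ)
    (hv : ContDiffOn ℝ 1 v {z | z ∈ B d ∧ nm (z - p) < τ})
    (hvb : ∀ z ∈ B d, nm (z - p) < τ → ‖v z‖ ≤ η ∧ ∀ ξ,
      ‖db v z ξ - Φ z ξ‖ ≤ c₂ * a z ^ 2 * len z ξ)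
    (hT1 : c₀ + η ≤ T) (hT2 : c₁ + c₂ ≤ T) :
    ∃ H : E d → ℂ, DifferentiableOn ℂ H (B d) ∧
      ∀ z ∈ B d, nm (z - p) < min ρ R → ‖H z - starRingEnd ℂ (Y z)‖ ≤ 2 * η := by
  have hR : ∀ z : E d, nm (z - p) < R → nm (z - p) < τ := fun z hz => lt_of_lt_of_le hz hRτ
  have hYc : ContDiffOn ℝ 1 (fun w => starRingEnd ℂ (Y w)) (B d) :=
    Complex.conjCLE.contDiff.comp_contDiffOn hY
  obtain ⟨H, hH, hHb⟩ := hLA (fun w => starRingEnd ℂ (Y w) - v w)
    ((hYc.mono fun z hz => hz.1).sub (hv.mono fun z hz => ⟨hz.1, hR z hz.2⟩))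
    (fun z hz hzR => by
      refine (norm_sub_le _ _).trans ?_
      rw [RCLike.norm_conj]
      linarith [hYb z hz, (hvb z hz (hR z hzR)).1])
    (fun z hz hzR ξ => by
      have h1 : DifferentiableAt ℝ (fun w => starRingEnd ℂ (Y w)) z :=
        (hYc.contDiffAt (B_open.mem_nhds hz)).differentiableAt one_ne_zero
      have hmem : z ∈ {z : E d | z ∈ B d ∧ nm (z - p) < τ} := ⟨hz, hR z hzR⟩
      have h2 : DifferentiableAt ℝ v z :=
        (hv.contDiffAt ((W_open p τ).mem_nhds hmem)).differentiableAt one_ne_zero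
      rw [db_sub h1 h2]
      have h3 := hYd z hz ξ
      have h4 := (hvb z hz (hR z hzR)).2 ξ
      have h5 : db (fun w => starRingEnd ℂ (Y w)) z ξ - db v z ξ =
          (db (fun w => starRingEnd ℂ (Y w)) z ξ - Φ z ξ) - (db v z ξ - Φ z ξ) := by ring
      rw [h5]
      refine (norm_sub_le _ _).trans ((add_le_add h3 h4).trans ?_)
      have h6 : 0 ≤ a z ^ 2 * len z ξ := mul_nonneg (sq_nonneg _) (len_nonneg _ _)
      have h7 := mul_le_mul_of_nonneg_right hT2 h6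
      calc _ = (c₁ + c₂) * (a z ^ 2 * len z ξ) := by ring
        _ ≤ T * (a z ^ 2 * len z ξ) := h7
        _ = _ := by ring)
  refine ⟨H, hH, fun z hz hzρ => ?_⟩
  have h1 := hHb z hz (lt_of_lt_of_le hzρ (min_le_left _ _))
  have h2 := (hvb z hz (hR z (lt_of_lt_of_le hzρ (min_le_right _ _)))).1
  have h3 : H z - starRingEnd ℂ (Y z) = (H z - (starRingEnd ℂ (Y z) - v z)) - v z := by ring
  rw [h3]
  exact (norm_sub_le _ _).trans (by linarith)

/-- **local solutions for dilated data, local hypotheses** -/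
theorem LTQ_of (d : ℕ) (hN : YN d) (_hF : YF d) (hX : XG d) (hS : SSQ d) (hL : LALQ d) :
    LTQ d := by
  intro M L ε A R₀ τ σ hε hR₀ hτ hσ
  obtain ⟨CX0, hCX0, hXC⟩ := hX (ε / 4) (ε / 2) (by linarith) (by linarith)
  obtain ⟨Q, hQ⟩ : ∃ Q, Q = max CX0 1 := ⟨_, rfl⟩
  have hQ1 : 1 ≤ Q := hQ ▸ le_max_right _ _
  have hQ2 : CX0 ≤ Q := hQ ▸ le_max_left _ _
  have hQ0 : 0 < Q := by linarith
  obtain ⟨c, hc⟩ : ∃ c, c = min ((ε / 4) ^ 2) 1 := ⟨_, rfl⟩
  have hc0 : 0 < c := by rw [hc]; positivity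
  obtain ⟨W, hW⟩ : ∃ W : ℝ, W = 2 * M + L * ((Q + 2) ^ M * (1 + 2 * M * (Q ^ M * |A|))) :=
    ⟨_, rfl⟩
  have hW0 : 0 ≤ W := by rw [hW]; positivity
  obtain ⟨η, hη⟩ : ∃ η : ℝ, η = min 1 (c / (2 * (W + 1))) := ⟨_, rfl⟩
  have hη0 : 0 < η := by rw [hη]; positivity
  have hη1 : η ≤ 1 := hη ▸ min_le_left _ _
  have hηW : η * W ≤ c / 2 := by
    have h1 : η ≤ c / (2 * (W + 1)) := hη ▸ min_le_right _ _
    have h2 : η * (2 * (W + 1)) ≤ c := (le_div_iff₀ (by positivity)).1 h1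
    nlinarith
  obtain ⟨t₀, C₂, k₁, ht₀, hC₂, hSS⟩ := hS Q η R₀ σ hQ0 hη0 hR₀ hσ
  obtain ⟨t₁, C₂', k₂, ht₁, hC₂', hSS'⟩ := hS 1 η R₀ σ one_pos hη0 hR₀ hσ
  obtain ⟨k₃, hk₃⟩ := exists_pow_lt_of_lt_one (half_pos hR₀) (by norm_num : (1 / 2 : ℝ) < 1)
  obtain ⟨R, hR⟩ : ∃ R, R = min (min t₀ t₁) (R₀ / 2) := ⟨_, rfl⟩
  have hR0 : 0 < R := by rw [hR]; exact lt_min (lt_min ht₀ ht₁) (half_pos hR₀)
  have hRτ : R ≤ t₀ := hR ▸ (min_le_left _ _).trans (min_le_left _ _)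
  have hRτ' : R ≤ t₁ := hR ▸ (min_le_left _ _).trans (min_le_right _ _)
  have hRR : R ≤ R₀ / 2 := hR ▸ min_le_right _ _
  obtain ⟨T, hT⟩ : ∃ T : ℝ, T = Q ^ M * |A| + |A| * (M * Q ^ M) + (Q + η) + (Q + C₂) + (1 + η) +
    C₂' := ⟨_, rfl⟩
  have hA0 : 0 ≤ |A| := abs_nonneg A
  have ha1 : 0 ≤ Q ^ M * |A| := by positivity
  have ha2 : 0 ≤ |A| * (M * Q ^ M) := by positivity
  have hT0 : 0 < T := by linarith
  obtain ⟨ρ, hρ, hLA0⟩ := hL T R τ hT0 hR0 hτ η hη0
  refine ⟨6 / c + (Q ^ M * |A| + 1) * (Q + 2) ^ M * (2 / c), min ρ R, max k₁ (max k₂ k₃),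
    lt_min hρ hR0, ?_⟩
  intro p hp f G κ a hArb hAW hTail haσ habw hfd k hk
  have hkk₁ : k₁ ≤ k := (le_max_left _ _).trans hk
  have hkk₂ : k₂ ≤ k := ((le_max_left _ _).trans (le_max_right _ _)).trans hk
  have hkk₃ : k₃ ≤ k := ((le_max_right _ _).trans (le_max_right _ _)).trans hk
  have hnear : ∀ z ∈ B d, nm (z - p) < R → nm (rad k • z - p) < R₀ := by
    intro z hz hzR
    have h1 := nm_dil (p := p) hz k
    have h2 : (1 / 2 : ℝ) ^ k ≤ (1 / 2) ^ k₃ :=
      pow_le_pow_of_le_one (by norm_num) (by norm_num) hkk₃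
    linarith
  have hTail' : LTail R p τ a := fun κ hκ z hz hzR => hTail κ hκ z hz (by linarith)
  have hLA := hLA0 p hp a hAW hTail'
  have hrk0 := rad_nonneg k
  have hrk1 : rad k ≤ 1 := (rad_lt_one k).le
  have hrz : ∀ z ∈ B d, rad k • z ∈ B d := fun z hz => smul_mem_B hz hrk0 hrk1
  choose X P hXP using fun j => hXC (f j) a (hArb.f1 j) (hArb.f2 j) hAW (hfd j)
  -- the conjugates of the `X j`
  have hHX : ∀ j, ∃ H : E d → ℂ, DifferentiableOn ℂ H (B d) ∧
      ∀ z ∈ B d, nm (z - p) < min ρ R → ‖H z - starRingEnd ℂ (X j k z)‖ ≤ 2 * η := by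
    intro j
    obtain ⟨v, hv, hvb⟩ := hSS p hp (f j) a (P j) (hArb.f1 j) hAW haσ habw (hfd j)
      (fun k => (hXP j k).2.1)
      (fun k z hz => by
        obtain ⟨-, hP, -, -, -, hPP, hξ⟩ := (hXP j k).2.2 z hz
        have hw := (hAW.a2 z hz).1.le
        obtain ⟨hst, -, hww, -⟩ := hN z hz k
        have h1 : 0 ≤ st k z / ww z k := div_nonneg hst hww.le
        refine ⟨hP.trans hQ2, hPP.trans ?_, fun ξ => (hξ ξ).2.2.2.trans ?_⟩
        · exact mul_le_mul_of_nonneg_right (mul_le_mul_of_nonneg_right hQ2 hw) h1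
        · exact mul_le_mul_of_nonneg_right (mul_le_mul_of_nonneg_right
            (mul_le_mul_of_nonneg_right hQ2 hw) (pow_nonneg hww.le 3)) (len_nonneg _ _)) k hkk₁
    exact lal_local hLA hRτ (c₀ := Q) (c₁ := Q) (c₂ := C₂)
      (Φ := fun z ξ => P j k z * starRingEnd ℂ (xj (f j) k z ξ))
      (hXP j k).1 (fun z hz => ((hXP j k).2.2 z hz).1.trans hQ2)
      (fun z hz ξ => (((hXP j k).2.2 z hz).2.2.2.2.2.2 ξ).2.1.trans
        (mul_le_mul_of_nonneg_right (mul_le_mul_of_nonneg_right hQ2 (sq_nonneg _))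
          (len_nonneg _ _))) hv hvb (by linarith) (by linarith)
  -- the conjugates of the `f j`
  have hHf : ∀ j, ∃ H : E d → ℂ, DifferentiableOn ℂ H (B d) ∧
      ∀ z ∈ B d, nm (z - p) < min ρ R → ‖H z - starRingEnd ℂ (f j (rad k • z))‖ ≤ 2 * η := by
    intro j
    obtain ⟨v, hv, hvb⟩ := hSS' p hp (f j) a (fun _ _ => 1) (hArb.f1 j) hAW haσ habw (hfd j)
      (fun k => contDiffOn_const)
      (fun k z hz => by
        have hw := (hAW.a2 z hz).1.le
        obtain ⟨hst, -, hww, -⟩ := hN z hz k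
        have h1 : 0 ≤ st k z / ww z k := div_nonneg hst hww.le
        refine ⟨by rw [norm_one], ?_, fun ξ => ?_⟩
        · rw [sub_self, norm_zero]; positivity
        · have h2 := len_nonneg z ξ
          rw [fderiv_const_apply, zero_apply, norm_zero]; positivity) k hkk₂
    exact lal_local hLA hRτ' (c₀ := 1) (c₁ := 0) (c₂ := C₂')
      (Y := fun z => f j (rad k • z))
      (Φ := fun z ξ => 1 * starRingEnd ℂ (xj (f j) k z ξ))
      (cd_dil (cd_hol (hArb.f1 j)) hrk0 hrk1) (fun z hz => hArb.f2 j _ (hrz z hz))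
      (fun z hz ξ => by
        rw [db_conj_dil (da_hol (hArb.f1 j) (hrz z hz)), one_mul]
        unfold xj
        rw [sub_self, norm_zero, zero_mul, zero_mul]) hv hvb (by linarith) (by linarith)
  -- the functions `Z κ l`
  have hKp := fun l => Kf_local (M := M) (ε := ε) (r := rad k) (A := A) (C := Q) (f := f)
    (X := fun j => X j k) (κ := κ l) (p := p) (R := R₀) (R' := R) hε hrk0 hrk1 hnear hArb.f1 (hArb.k1 l) (hArb.k2 l) hQ1
    (fun j => (hXP j k).1) (fun j z hz => ((hXP j k).2.2 z hz).1.trans hQ2)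
    (fun j z hz => ((hXP j k).2.2 z hz).2.2.1) (a := fun z => a z ^ 2)
    (fun z _ => sq_nonneg _)
    (fun j z hz ξ => (((hXP j k).2.2 z hz).2.2.2.2.2.2 ξ).1.trans
      (mul_le_mul_of_nonneg_right (mul_le_mul_of_nonneg_right hQ2 (sq_nonneg _))
        (len_nonneg _ _)))
  have hHK : ∀ l, ∃ H : E d → ℂ, DifferentiableOn ℂ H (B d) ∧
      ∀ z ∈ B d, nm (z - p) < ρ → ‖H z - Kf ε (rad k) f (fun j => X j k) (κ l) z‖ ≤ η := by
    intro l
    refine hLA _ (hKp l).1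
      (fun z hz hzR => ((hKp l).2 z hz hzR).1.trans (by linarith))
      (fun z hz hzR ξ => (((hKp l).2 z hz hzR).2 ξ).trans ?_)
    exact mul_le_mul_of_nonneg_right (mul_le_mul_of_nonneg_right (by linarith) (sq_nonneg _))
      (len_nonneg _ _)
  choose HX hHXd hHXb using hHX
  choose Hf hHfd hHfb using hHf
  choose HK hHKd hHKb using hHK
  obtain ⟨S, hSdef⟩ : ∃ S : E d → ℂ, S = fun z => ∑ j, f j (rad k • z) * Hf j z +
    ∑ l, G l (rad k • z) * (HK l z * ∏ j, HX j z) := ⟨_, rfl⟩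
  have hdilf : ∀ g : E d → ℂ, DifferentiableOn ℂ g (B d) →
      DifferentiableOn ℂ (fun z => g (rad k • z)) (B d) := fun g hg z hz =>
    ((dil_hasFDerivAt (da_hol hg (hrz z hz))).differentiableAt).differentiableWithinAt
  have hprod : DifferentiableOn ℂ (fun z => ∏ j, HX j z) (B d) := by
    exact prod_hol Finset.univ hHXd
  have hSd : DifferentiableOn ℂ S (B d) := by
    rw [hSdef]
    refine DifferentiableOn.add (DifferentiableOn.fun_sum fun j _ => ?_)
      (DifferentiableOn.fun_sum fun l _ => ?_)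
    · exact (hdilf _ (hArb.f1 j)).mul (hHfd j)
    · exact (hdilf _ (hArb.g1 l)).mul ((hHKd l).mul hprod)
  -- estimates
  have hmain : ∀ z ∈ B d, nm (z - p) < min ρ R → c / 2 ≤ ‖S z‖ ∧ (∀ j, ‖Hf j z‖ ≤ 3) ∧
      ∀ l, ‖HK l z * ∏ j, HX j z‖ ≤ (Q ^ M * |A| + 1) * (Q + 2) ^ M := by
    intro z hz hzρ
    have hzR : nm (z - p) < R := lt_of_lt_of_le hzρ (min_le_right _ _)
    obtain ⟨D, hD1, hD2⟩ := D_val (M := M) (L := L) (ε := ε) (r := rad k) (f := f)
      (X := fun j => X j k) (G := G) (κ := κ) (z := z) hε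
      (fun h => hArb.k3 _ (hrz z hz) (hnear z hz hzR) h) (fun j => ((hXP j k).2.2 z hz).2.2.1)
      (fun j => ((hXP j k).2.2 z hz).2.2.2.1)
    obtain ⟨h1, h2, h3⟩ := main_alg (M := M) (L := L) (Q := Q) (A := Q ^ M * |A|) (η := η) hQ1
      hη0.le hη1 (f := fun j => f j (rad k • z)) (Hf := fun j => Hf j z)
      (x := fun j => starRingEnd ℂ (X j k z)) (HX := fun j => HX j z)
      (G := fun l => G l (rad k • z)) (K := fun l => Kf ε (rad k) f (fun j => X j k) (κ l) z)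
      (HK := fun l => HK l z) (D := (D : ℂ))
      (fun j => hArb.f2 j _ (hrz z hz)) (fun j => hHfb j z hz hzρ)
      (fun j => by rw [RCLike.norm_conj]; exact ((hXP j k).2.2 z hz).1.trans hQ2)
      (fun j => hHXb j z hz hzρ) (fun l => hArb.g2 l _ (hrz z hz))
      (fun l => ((hKp l).2 z hz hzR).1)
      (fun l => hHKb l z hz (lt_of_lt_of_le hzρ (min_le_left _ _))) ha1 hD2
    refine ⟨?_, h2, h3⟩
    rw [← hW] at h1
    have h4 : ‖S z - (D : ℂ)‖ ≤ c / 2 := by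
      rw [hSdef]
      exact h1.trans hηW
    have h5 : c ≤ ‖(D : ℂ)‖ := by
      rw [Complex.norm_real, Real.norm_eq_abs, hc]
      exact hD1.trans (le_abs_self D)
    have h6 : ‖(D : ℂ)‖ ≤ ‖(D : ℂ) - S z‖ + ‖S z‖ := by
      have := norm_add_le ((D : ℂ) - S z) (S z)
      rwa [sub_add_cancel] at this
    rw [norm_sub_rev] at h6
    linarith
  have hSne : ∀ z ∈ B d, nm (z - p) < min ρ R → S z ≠ 0 := by
    intro z hz hzρ h0
    have := (hmain z hz hzρ).1
    rw [h0, norm_zero] at this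
    linarith
  refine ⟨fun j z => Hf j z / S z, fun l z => (HK l z * ∏ j, HX j z) / S z, ?_, ?_, ?_⟩
  · intro j
    exact div_hol hSd (hHfd j) fun z hz hz2 => hSne z hz hz2
  · intro l
    exact div_hol hSd ((hHKd l).mul hprod) fun z hz hz2 => hSne z hz hz2
  · intro z hz hzρ
    obtain ⟨h1, h2, h3⟩ := hmain z hz hzρ
    have hS0 : 0 < ‖S z‖ := by linarith
    have hne := hSne z hz hzρ
    have h6 : (0 : ℝ) ≤ 6 / c := by positivity
    have h7 : (0 : ℝ) ≤ (Q ^ M * |A| + 1) * (Q + 2) ^ M * (2 / c) := by positivity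
    have hinv : 1 / ‖S z‖ ≤ 2 / c := by
      rw [div_le_div_iff₀ hS0 hc0]; linarith
    refine ⟨fun j => ?_, fun l => ?_, ?_⟩
    · rw [norm_div]
      have h8 : ‖Hf j z‖ / ‖S z‖ ≤ 6 / c := by
        calc ‖Hf j z‖ / ‖S z‖ = ‖Hf j z‖ * (1 / ‖S z‖) := by ring
          _ ≤ 3 * (2 / c) := mul_le_mul (h2 j) hinv (by positivity) (by norm_num)
          _ = 6 / c := by ring
      linarith
    · rw [norm_div]
      have h8 : ‖HK l z * ∏ j, HX j z‖ / ‖S z‖ ≤
          (Q ^ M * |A| + 1) * (Q + 2) ^ M * (2 / c) := by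
        calc ‖HK l z * ∏ j, HX j z‖ / ‖S z‖ = ‖HK l z * ∏ j, HX j z‖ * (1 / ‖S z‖) := by ring
          _ ≤ _ := mul_le_mul (h3 l) hinv (by positivity) (by positivity)
      linarith
    · have h8 : ∑ j, f j (rad k • z) * (Hf j z / S z) +
          ∑ l, G l (rad k • z) * ((HK l z * ∏ j, HX j z) / S z) = S z / S z := by
        rw [hSdef]
        simp only [add_div, Finset.sum_div, mul_div_assoc]
      rw [h8, div_self hne]

end Pool.Agent.N369.RN
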